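import Pool.Agent.Helper71.JN.SheetB

/-!
Project JN, row RK: basic facts on the ring `R` of Laurent polynomials and its field of
fractions `K`.
-/

set_option autoImplicit false

namespace Pool.Agent.Helper47.JN

open Pool.Agent.Helper71.JN Finset

section mon

variable {Ω : Type} [Field Ω] {r : ℕ} {w : Fin r → Ω}

theorem mon_add (hw : ∀ k, w k ≠ 0) (m m' : Fin r → ℤ) :
    mon w (m + m') = mon w m * mon w m' := by
  unfold mon
  rw [← Finset.prod_mul_distrib]
  exact Finset.prod_congr rfl fun k _ => zpow_add₀ (hw k) _ _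

theorem mon_zero : mon w 0 = 1 := by simp [mon]

theorem mon_ne (hw : ∀ k, w k ≠ 0) (m : Fin r → ℤ) : mon w m ≠ 0 :=
  Finset.prod_ne_zero_iff.2 fun k _ => zpow_ne_zero _ (hw k)

theorem mon_neg (m : Fin r → ℤ) : mon w (-m) = (mon w m)⁻¹ := by
  unfold mon
  rw [← Finset.prod_inv_distrib]
  exact Finset.prod_congr rfl fun k _ => zpow_neg _ _

theorem mon_single (k : Fin r) (c : ℤ) : mon w (Pi.single k c) = w k ^ c := by
  unfold mon
  rw [Finset.prod_eq_single k]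
  · simp
  · intro b _ hb
    rw [Pi.single_eq_of_ne hb, zpow_zero]
  · intro h
    exact absurd (Finset.mem_univ k) h

end mon

variable {F Ω : Type} [Field F] [Field Ω] [Algebra F Ω] {I : Type} [Fintype I] {r : ℕ}

theorem mon_mem (D : SSF F Ω I r) (m : Fin r → ℤ) : mon D.w m ∈ D.R := by
  unfold mon
  refine Subalgebra.prod_mem _ fun k _ => ?_
  have h1 : D.w k ∈ D.R := Algebra.subset_adjoin (Or.inl ⟨k, rfl⟩)
  have h2 : (D.w k)⁻¹ ∈ D.R := Algebra.subset_adjoin (Or.inr ⟨k, rfl⟩)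
  obtain ⟨n, hn | hn⟩ := Int.eq_nat_or_neg (m k)
  · rw [hn, zpow_natCast]
    exact Subalgebra.pow_mem _ h1 n
  · rw [hn, zpow_neg, zpow_natCast, ← inv_pow]
    exact Subalgebra.pow_mem _ h2 n

theorem R_le_O (D : SSF F Ω I r) : ∀ z ∈ D.R, z ∈ D.O := by
  intro z hz
  unfold SSF.R at hz
  induction hz using Algebra.adjoin_induction with
  | mem x hx =>
    rcases hx with ⟨k, rfl⟩ | ⟨k, rfl⟩
    · exact D.wO k
    · exact D.wO' k
  | algebraMap c => exact D.FO c
  | add x y _ _ hx hy => exact D.O.add_mem hx hy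
  | mul x y _ _ hx hy => exact D.O.mul_mem hx hy

theorem w_mem_K (D : SSF F Ω I r) (k : Fin r) : D.w k ∈ D.K :=
  IntermediateField.subset_adjoin F _ ⟨k, rfl⟩

theorem R_le_K (D : SSF F Ω I r) : ∀ z ∈ D.R, z ∈ D.K := by
  intro z hz
  unfold SSF.R at hz
  induction hz using Algebra.adjoin_induction with
  | mem x hx =>
    rcases hx with ⟨k, rfl⟩ | ⟨k, rfl⟩
    · exact w_mem_K D k
    · exact D.K.inv_mem (w_mem_K D k)
  | algebraMap c => exact D.K.algebraMap_mem c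
  | add x y _ _ hx hy => exact D.K.add_mem hx hy
  | mul x y _ _ hx hy => exact D.K.mul_mem hx hy

/-- natural exponents -/
def nz (n : Fin r →₀ ℕ) : Fin r → ℤ := fun k => (n k : ℤ)

theorem nz_inj : Function.Injective (nz (r := r)) := by
  intro a b h
  ext k
  have := congrFun h k
  simp only [nz] at this
  exact_mod_cast this

theorem ev_monomial (D : SSF F Ω I r) (n : Fin r →₀ ℕ) (c : F) :
    D.ev (MvPolynomial.monomial n c) = algebraMap F Ω c * mon D.w (nz n) := by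
  unfold SSF.ev
  rw [MvPolynomial.aeval_monomial, Finsupp.prod_fintype _ _ (fun i => pow_zero _)]
  congr 1
  unfold mon nz
  exact Finset.prod_congr rfl fun k _ => (zpow_natCast _ _).symm

theorem ev_sum (D : SSF F Ω I r) (p : MvPolynomial (Fin r) F) :
    D.ev p = ∑ n ∈ p.support, algebraMap F Ω (p.coeff n) * mon D.w (nz n) := by
  conv_lhs => rw [p.as_sum]
  rw [map_sum]
  exact Finset.sum_congr rfl fun n _ => ev_monomial D n _

theorem ev_mem (D : SSF F Ω I r) (p : MvPolynomial (Fin r) F) : D.ev p ∈ D.R := by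
  rw [ev_sum]
  exact Subalgebra.sum_mem _ fun n _ =>
    Subalgebra.mul_mem _ (Subalgebra.algebraMap_mem _ _) (mon_mem D _)

theorem exists_nat (D : SSF F Ω I r) (m : Fin r → ℤ) (hm : 0 ≤ m) :
    ∃ p : MvPolynomial (Fin r) F, mon D.w m = D.ev p := by
  refine ⟨MvPolynomial.monomial (Finsupp.equivFunOnFinite.symm fun k => (m k).toNat) 1, ?_⟩
  rw [ev_monomial, map_one, one_mul]
  congr 1
  funext k
  simp only [nz, Finsupp.equivFunOnFinite_symm_apply_apply]
  exact (Int.toNat_of_nonneg (hm k)).symm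

theorem R_form (D : SSF F Ω I r) : ∀ z ∈ D.R, ∃ (m : Fin r → ℤ) (p : MvPolynomial (Fin r) F),
    z = mon D.w m * D.ev p := by
  intro z hz
  unfold SSF.R at hz
  induction hz using Algebra.adjoin_induction with
  | mem x hx =>
    rcases hx with ⟨k, rfl⟩ | ⟨k, rfl⟩
    · refine ⟨0, MvPolynomial.X k, ?_⟩
      rw [mon_zero, one_mul]
      simp [SSF.ev]
    · refine ⟨Pi.single k (-1), 1, ?_⟩
      rw [mon_single, map_one, mul_one, zpow_neg_one]
  | algebraMap c =>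
    refine ⟨0, MvPolynomial.C c, ?_⟩
    rw [mon_zero, one_mul]
    simp [SSF.ev]
  | add x y _ _ hx hy =>
    obtain ⟨m₁, p₁, rfl⟩ := hx
    obtain ⟨m₂, p₂, rfl⟩ := hy
    obtain ⟨q₁, hq₁⟩ := exists_nat D (m₁ - m₁ ⊓ m₂) (sub_nonneg.2 inf_le_left)
    obtain ⟨q₂, hq₂⟩ := exists_nat D (m₂ - m₁ ⊓ m₂) (sub_nonneg.2 inf_le_right)
    refine ⟨m₁ ⊓ m₂, q₁ * p₁ + q₂ * p₂, ?_⟩
    have h1 : mon D.w m₁ = mon D.w (m₁ ⊓ m₂) * D.ev q₁ := by
      rw [← hq₁, ← mon_add D.w0, add_sub_cancel]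
    have h2 : mon D.w m₂ = mon D.w (m₁ ⊓ m₂) * D.ev q₂ := by
      rw [← hq₂, ← mon_add D.w0, add_sub_cancel]
    rw [map_add, map_mul, map_mul, h1, h2]
    ring
  | mul x y _ _ hx hy =>
    obtain ⟨m₁, p₁, rfl⟩ := hx
    obtain ⟨m₂, p₂, rfl⟩ := hy
    refine ⟨m₁ + m₂, p₁ * p₂, ?_⟩
    rw [mon_add D.w0, map_mul]
    ring

theorem R_sum (D : SSF F Ω I r) : ∀ z ∈ D.R, ∃ (s : Finset (Fin r → ℤ)) (c : (Fin r → ℤ) → F),
    (∀ m ∈ s, c m ≠ 0) ∧ z = ∑ m ∈ s, algebraMap F Ω (c m) * mon D.w m := by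
  classical
  intro z hz
  obtain ⟨m₀, p, rfl⟩ := R_form D z hz
  have hinj : Function.Injective fun n : Fin r →₀ ℕ => m₀ + nz n := by
    intro a b h
    exact nz_inj (add_left_cancel h)
  set g : (Fin r → ℤ) → (Fin r →₀ ℕ) := fun m =>
    Finsupp.equivFunOnFinite.symm fun k => (m k - m₀ k).toNat with hg
  have hgn : ∀ n : Fin r →₀ ℕ, g (m₀ + nz n) = n := by
    intro n
    ext k
    simp [hg, nz]
  refine ⟨p.support.image fun n => m₀ + nz n, fun m => p.coeff (g m), ?_, ?_⟩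
  · intro m hm
    obtain ⟨n, hn, rfl⟩ := Finset.mem_image.1 hm
    simp only [hgn]
    exact MvPolynomial.mem_support_iff.1 hn
  · rw [Finset.sum_image fun a _ b _ h => hinj h, ev_sum, Finset.mul_sum]
    refine Finset.sum_congr rfl fun n _ => ?_
    beta_reduce
    rw [hgn, mon_add D.w0]
    ring

theorem sum_mem_R (D : SSF F Ω I r) (s : Finset (Fin r → ℤ)) (c : (Fin r → ℤ) → F) :
    ∑ m ∈ s, algebraMap F Ω (c m) * mon D.w m ∈ D.R :=
  Subalgebra.sum_mem _ fun _ _ =>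
    Subalgebra.mul_mem _ (Subalgebra.algebraMap_mem _ _) (mon_mem D _)

theorem nu_mon_pos (D : SSF F Ω I r) (i : I) (m : Fin r → ℤ) : 0 < D.nu i (mon D.w m) :=
  (D.nu i).pos (mon_ne D.w0 m)

theorem ev_ne (D : SSF F Ω I r) (p : MvPolynomial (Fin r) F) (hp : p ≠ 0) : D.ev p ≠ 0 := by
  classical
  intro h0
  rcases isEmpty_or_nonempty I with hI | ⟨⟨i⟩⟩
  · have hz : ∀ n : Fin r →₀ ℕ, n = 0 := fun n =>
      nz_inj (by rw [D.u0 (nz n) fun i => isEmptyElim i, D.u0 (nz 0) fun i => isEmptyElim i])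
    obtain ⟨n, hn⟩ := MvPolynomial.ne_zero_iff.1 hp
    have hp2 : p = MvPolynomial.C (p.coeff 0) := by
      ext m
      rw [hz m, MvPolynomial.coeff_zero_C]
    rw [hp2] at h0
    have h1 : algebraMap F Ω (p.coeff 0) = 0 := by simpa [SSF.ev] using h0
    have h2 : p.coeff 0 = 0 := (map_eq_zero _).1 h1
    rw [hz n] at hn
    exact hn h2
  · obtain ⟨s, c, hc, hs⟩ := R_sum D _ (ev_mem D p)
    obtain ⟨n, hn⟩ := MvPolynomial.ne_zero_iff.1 hp
    set g : (Fin r → ℤ) → (Fin r →₀ ℕ) := fun m =>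
      Finsupp.equivFunOnFinite.symm fun k => (m k).toNat with hg
    have hgn : ∀ n : Fin r →₀ ℕ, g (nz n) = n := by
      intro n
      ext k
      simp [hg, nz]
    have h1 := D.lau i (p.support.image nz) (fun m => p.coeff (g m)) (nz n)
      (Finset.mem_image.2 ⟨n, MvPolynomial.mem_support_iff.2 hn, rfl⟩) (by
        simp only [hgn]
        exact hn)
    rw [Finset.sum_image fun a _ b _ h => nz_inj h] at h1
    simp only [hgn] at h1
    rw [← ev_sum, h0, map_zero] at h1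
    exact absurd h1 (not_le.2 (nu_mon_pos D i _))

theorem ev_inj (D : SSF F Ω I r) : Function.Injective D.ev := by
  rw [injective_iff_map_eq_zero]
  intro p hp
  by_contra h
  exact ev_ne D p h hp

theorem K_form (D : SSF F Ω I r) : ∀ z ∈ D.K, ∃ p q : MvPolynomial (Fin r) F, q ≠ 0 ∧
    z = D.ev p / D.ev q := by
  intro z hz
  obtain ⟨p, q, h⟩ := (IntermediateField.mem_adjoin_range_iff F D.w z).1 hz
  by_cases hq : q = 0
  · refine ⟨0, 1, one_ne_zero, ?_⟩
    rw [h, hq]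
    simp
  · exact ⟨p, q, hq, h⟩

theorem prod_ge (D : SSF F Ω I r) : ∀ z ∈ D.O, z ≠ 0 → 1 ≤ ∏ i, D.nu i z := by
  intro z hz h0
  have h := D.ss 1 (fun _ => z) (fun _ _ => z) (fun _ => hz)
    (LinearIndependent.of_subsingleton 0 h0) (fun _ => rfl)
  simpa using h

theorem prod_mon (D : SSF F Ω I r) (m : Fin r → ℤ) : ∏ i, D.nu i (mon D.w m) = 1 := by
  have h1 := prod_ge D _ (R_le_O D _ (mon_mem D m)) (mon_ne D.w0 m)
  have h2 := prod_ge D _ (R_le_O D _ (mon_mem D (-m))) (mon_ne D.w0 (-m))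
  have h3 : (∏ i, D.nu i (mon D.w m)) * ∏ i, D.nu i (mon D.w (-m)) = 1 := by
    rw [← Finset.prod_mul_distrib]
    refine Finset.prod_eq_one fun i _ => ?_
    rw [← map_mul, mon_neg, mul_inv_cancel₀ (mon_ne D.w0 m), map_one]
  have h4 : 0 < ∏ i, D.nu i (mon D.w m) := Finset.prod_pos fun i _ => nu_mon_pos D i m
  nlinarith

theorem R_unit (D : SSF F Ω I r) : ∀ z ∈ D.R, z ≠ 0 → ∏ i, D.nu i z ≤ 1 →
    ∃ (c : F) (m : Fin r → ℤ), c ≠ 0 ∧ z = algebraMap F Ω c * mon D.w m := by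
  intro z hz h0 hp
  obtain ⟨s, c, hc, rfl⟩ := R_sum D z hz
  have hle : ∀ m ∈ s, ∀ i, D.nu i (mon D.w m) ≤
      D.nu i (∑ m ∈ s, algebraMap F Ω (c m) * mon D.w m) :=
    fun m hm i => D.lau i s c m hm (hc m hm)
  have heq : ∀ m ∈ s, ∀ i, D.nu i (mon D.w m) =
      D.nu i (∑ m ∈ s, algebraMap F Ω (c m) * mon D.w m) := by
    intro m hm
    by_contra hcon
    push Not at hcon
    obtain ⟨i, hi⟩ := hcon
    have hlt : ∏ i, D.nu i (mon D.w m) <
        ∏ i, D.nu i (∑ m ∈ s, algebraMap F Ω (c m) * mon D.w m) :=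
      Finset.prod_lt_prod (fun i _ => nu_mon_pos D i m) (fun i _ => hle m hm i)
        ⟨i, Finset.mem_univ _, lt_of_le_of_ne (hle m hm i) hi⟩
    rw [prod_mon] at hlt
    linarith
  have hne : s.Nonempty := by
    rw [Finset.nonempty_iff_ne_empty]
    rintro rfl
    simp at h0
  obtain ⟨m, hm⟩ := hne
  have hs : s = {m} := by
    refine Finset.eq_singleton_iff_unique_mem.2 ⟨hm, fun m' hm' => ?_⟩
    have h1 : m' + -m = 0 := by
      refine D.u0 _ fun i => ?_
      rw [mon_add D.w0, mon_neg, map_mul, map_inv₀, heq m' hm' i, ← heq m hm i]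
      exact mul_inv_cancel₀ (nu_mon_pos D i m).ne'
    rw [← sub_eq_add_neg] at h1
    exact sub_eq_zero.1 h1
  subst hs
  exact ⟨c m, m, hc m (Finset.mem_singleton_self m), by rw [Finset.sum_singleton]⟩

theorem nu_sum_le (D : SSF F Ω I r) (i : I) (a : ℝ) (ha : 0 ≤ a) {κ : Type} (s : Finset κ)
    (f : κ → Ω) (h : ∀ m ∈ s, D.nu i (f m) ≤ a) : D.nu i (∑ m ∈ s, f m) ≤ a := by
  classical
  induction s using Finset.induction_on with
  | empty => simpa using ha
  | insert b s hb ih =>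
    rw [Finset.sum_insert hb]
    exact (D.ult i _ _).trans (max_le (h b (Finset.mem_insert_self b s))
      (ih fun m hm => h m (Finset.mem_insert_of_mem hm)))

theorem nu_term (D : SSF F Ω I r) (i : I) (c : F) (hc : c ≠ 0) (z : Ω) :
    D.nu i (algebraMap F Ω c * z) = D.nu i z := by
  rw [map_mul, D.F1 i c hc, one_mul]

theorem RK : ST_RK := by
  intro F Ω _ _ _ I _ r D
  refine ⟨mon_add D.w0, mon_zero, mon_ne D.w0, mon_neg, mon_mem D, R_le_O D, R_le_K D, R_form D,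
    ev_mem D, R_sum D, sum_mem_R D, ev_inj D, K_form D, prod_ge D, prod_mon D, R_unit D, ?_⟩
  intro s c i a ha h
  refine nu_sum_le D i a ha s _ fun m hm => ?_
  by_cases hc : c m = 0
  · rw [hc, map_zero, zero_mul, map_zero]
    exact ha
  · rw [nu_term D i _ hc]
    exact h m hm hc

end Pool.Agent.Helper47.JN
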