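import Pool.Agent.Helper71.JN.SheetC

/-!
Project JN, row T1BJ: `x` is close to `w ^ 2 +` smaller terms, `y` is an arbitrary integer.
-/

set_option autoImplicit false

namespace Pool.Agent.Helper47.JN

open Filter Finset Pool.Agent.Helper70.SUB Pool.Agent.Helper77.SUBK Pool.Agent.Helper70.SUBL
  Pool.Agent.Helper70.SUBW Pool.Agent.Helper71.JN

/-- one of `y - R ^ 3`, `y + R ^ 3` is small -/
theorem pick {X β : ℝ} (hX : 64 ≤ X) (hβ : β ≤ 1 / 2) {x y R : ℂ} (hx : ‖x‖ = X ^ 2)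
    (hd : ‖y ^ 2 - x ^ 3‖ ≤ X) (hR : ‖x - R ^ 2‖ ≤ X ^ β) :
    ‖y - R ^ 3‖ ≤ X ^ (5 / 2 : ℝ) ∨ ‖y + R ^ 3‖ ≤ X ^ (5 / 2 : ℝ) := by
  have hX0 : (0 : ℝ) < X := by linarith
  have hX1 : (1 : ℝ) ≤ X := by linarith
  have hβ2 : X ^ β ≤ X ^ (1 / 2 : ℝ) := Real.rpow_le_rpow_of_exponent_le hX1 hβ
  set q : ℝ := X ^ (1 / 2 : ℝ) with hq
  have hq2 : q ^ 2 = X := by
    rw [hq, ← Real.rpow_natCast, ← Real.rpow_mul hX0.le]
    norm_num
  have hq0 : 0 < q := Real.rpow_pos_of_pos hX0 _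
  have hq8 : 8 ≤ q := by nlinarith
  have h5 : X ^ (5 / 2 : ℝ) = q ^ 5 := by
    rw [hq, ← Real.rpow_natCast, ← Real.rpow_mul hX0.le]
    norm_num
  rw [h5]
  have hX4 : X ^ 2 = q ^ 4 := by rw [← hq2]; ring
  have hr : ‖x - R ^ 2‖ ≤ q := hR.trans hβ2
  have hR2 : ‖R ^ 2‖ ≤ 2 * q ^ 4 := by
    have h1 : R ^ 2 = x - (x - R ^ 2) := by ring
    rw [h1]
    refine (norm_sub_le _ _).trans ?_
    rw [hx, hX4]
    nlinarith [pow_pos hq0 2, pow_pos hq0 3, pow_pos hq0 4]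
  have hfac : ‖x ^ 2 + x * R ^ 2 + (R ^ 2) ^ 2‖ ≤ 7 * q ^ 8 := by
    refine (norm_add_le _ _).trans ((add_le_add_left (norm_add_le _ _) _).trans ?_)
    rw [norm_pow, norm_mul, norm_pow (R ^ 2), hx, hX4]
    have h1 : q ^ 4 * ‖R ^ 2‖ ≤ q ^ 4 * (2 * q ^ 4) :=
      mul_le_mul_of_nonneg_left hR2 (by positivity)
    have h2 : ‖R ^ 2‖ ^ 2 ≤ (2 * q ^ 4) ^ 2 := pow_le_pow_left₀ (norm_nonneg _) hR2 2
    nlinarith
  have hprod : ‖y - R ^ 3‖ * ‖y + R ^ 3‖ ≤ q ^ 10 := by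
    rw [← norm_mul]
    have h1 : (y - R ^ 3) * (y + R ^ 3) =
        (y ^ 2 - x ^ 3) + (x - R ^ 2) * (x ^ 2 + x * R ^ 2 + (R ^ 2) ^ 2) := by ring
    rw [h1]
    refine (norm_add_le _ _).trans ?_
    rw [norm_mul]
    have h2 : ‖x - R ^ 2‖ * ‖x ^ 2 + x * R ^ 2 + (R ^ 2) ^ 2‖ ≤ q * (7 * q ^ 8) :=
      mul_le_mul hr hfac (norm_nonneg _) hq0.le
    have h3 : X ≤ q ^ 9 := by
      rw [← hq2]
      exact pow_le_pow_right₀ (by linarith) (by norm_num)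
    have h4 : 8 * q ^ 9 ≤ q ^ 10 := by
      have : q ^ 10 = q * q ^ 9 := by ring
      rw [this]
      exact mul_le_mul_of_nonneg_right hq8 (by positivity)
    linarith
  by_contra hcon
  rw [not_or, not_le, not_le] at hcon
  have h6 : q ^ 5 * q ^ 5 < ‖y - R ^ 3‖ * ‖y + R ^ 3‖ :=
    mul_lt_mul'' hcon.1 hcon.2 (by positivity) (by positivity)
  have h7 : q ^ 5 * q ^ 5 = q ^ 10 := by ring
  linarith

theorem T1BJ (hEXTW : ST_EXTW) (hPFE : ST_PFE) (hSLW : ST_SLW) (hSPW : ST_SPW) (hMOD2 : ST_MOD2)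
    (hROOT : ST_ROOT) (hBRG : ST_BRG) : ST_T1BJ := by
  classical
  intro M _ _ _ S ψ k t g ε δ η B hS hg hε hδ hδ2 hη
  by_contra hcon
  obtain ⟨s, φ, hX, hs, hκ⟩ := hEXTW (M × (Fin t → ℤ) × (Fin t → M) × ℤ × ℤ)
    (fun κ b => SV S b.1 ∧ (∀ i, SV S (b.2.2.1 i)) ∧
      (∀ i, |(b.2.1 i : ℝ)| ≤ |(b.2.2.2.1 : ℝ)| ^ κ) ∧
      (∀ i, ‖ψ ((b.2.1 i : M) * b.2.2.1 i)‖ ≤ ‖ψ b.1‖ ^ (2 - δ)) ∧
      ‖(b.2.2.2.1 : ℂ) - ψ (b.1 ^ 2 + ∑ i, (b.2.1 i : M) * b.2.2.1 i)‖ ≤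
        |(b.2.2.2.1 : ℝ)| ^ (1 / 4 - η) ∧
      ((∃ z : ℤ, b.1 ^ 2 + ∑ i, (b.2.1 i : M) * b.2.2.1 i = (z : M)) ∨
        (HE g (B * Real.log |(b.2.2.2.1 : ℝ)|) b.1 ∧
          ∀ i, HE g (B * Real.log |(b.2.2.2.1 : ℝ)|) (b.2.2.1 i))) ∧
      b.2.2.2.2 ^ 2 ≠ b.2.2.2.1 ^ 3)
    (fun b => b.2.2.2.1) (fun b => b.2.2.2.2 ^ 2 - b.2.2.2.1 ^ 3) ε hε
    (fun κ b hb => sub_ne_zero.2 hb.2.2.2.2.2.2)
    (fun h => hcon (by
      obtain ⟨κ, hκ, C, hC⟩ := h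
      exact ⟨κ, hκ, C, fun w c a x y h1 h2 h3 h4 h5 h6 h7 =>
        hC (w, c, a, x, y) ⟨h1, h2, h3, h4, h5, h6, h7⟩⟩))
  obtain ⟨P, hP⟩ := hPFE M S ψ hS
  set w : ℕ → M := fun j => (s j).1 with hw
  set c : Fin t → ℕ → ℤ := fun i j => (s j).2.1 i with hc
  set a : Fin t → ℕ → M := fun i j => (s j).2.2.1 i with ha
  set x : ℕ → ℤ := fun j => (s j).2.2.2.1 with hx
  set y : ℕ → ℤ := fun j => (s j).2.2.2.2 with hy
  have hwS : ∀ j, SV S (w j) := fun j => (hs j).1.1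
  have haS : ∀ i j, SV S (a i j) := fun i j => (hs j).1.2.1 i
  have hcB : ∀ i j, |(c i j : ℝ)| ≤ |(x j : ℝ)| ^ (1 / ((j : ℝ) + 1)) :=
    fun i j => (hs j).1.2.2.1 i
  have haB : ∀ i j, ‖ψ ((c i j : M) * a i j)‖ ≤ ‖ψ (w j)‖ ^ (2 - δ) :=
    fun i j => (hs j).1.2.2.2.1 i
  have hap : ∀ j, ‖(x j : ℂ) - ψ (w j ^ 2 + ∑ i, (c i j : M) * a i j)‖ ≤
      |(x j : ℝ)| ^ (1 / 4 - η) := fun j => (hs j).1.2.2.2.2.1
  have halt : ∀ j, (∃ z : ℤ, w j ^ 2 + ∑ i, (c i j : M) * a i j = (z : M)) ∨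
      (HE g (B * Real.log |(x j : ℝ)|) (w j) ∧ ∀ i, HE g (B * Real.log |(x j : ℝ)|) (a i j)) :=
    fun j => (hs j).1.2.2.2.2.2.1
  have hne3 : ∀ j, y j ^ 2 ≠ x j ^ 3 := fun j => (hs j).1.2.2.2.2.2.2
  have hx1 : ∀ j, 1 ≤ |(x j : ℝ)| := fun j => (hs j).2.1
  have hdj : ∀ j, |((y j ^ 2 - x j ^ 3 : ℤ) : ℝ)| ≤ |(x j : ℝ)| ^ (1 / (2 + ε)) :=
    fun j => (hs j).2.2
  have hXt : Tendsto (fun j => |(x j : ℝ)|) (φ : Filter ℕ) atTop := hX
  -- the scale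
  set X : ℕ → ℝ := fun j => Real.sqrt |(x j : ℝ)| with hXdef
  have hX2 : ∀ j, X j ^ 2 = |(x j : ℝ)| := fun j => Real.sq_sqrt (abs_nonneg _)
  have hXX : Tendsto X (φ : Filter ℕ) atTop := Real.tendsto_sqrt_atTop.comp hXt
  have hX0 : ∀ j, 0 < X j := fun j => Real.sqrt_pos.2 (by linarith [hx1 j])
  have hXp : ∀ (j : ℕ) (e : ℝ), |(x j : ℝ)| ^ e = X j ^ (2 * e) := by
    intro j e
    rw [← hX2 j, ← Real.rpow_natCast, ← Real.rpow_mul (hX0 j).le]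
    norm_num
  -- closure properties
  obtain ⟨_, _, _, _, _, _, _, _, _, hint, _, _, hscale⟩ :=
    hSLW M S P φ (fun j => |(x j : ℝ)|) hS hXt
  have hcs : ∀ i, Slw P φ (fun j => |(x j : ℝ)|) (fun j => (c i j : M)) := by
    intro i
    refine hint (fun j => c i j) fun e he => ?_
    filter_upwards [hκ e he] with j hj
    exact (hcB i j).trans (Real.rpow_le_rpow_of_exponent_le (hx1 j) hj)
  obtain ⟨hMUw, hSpA, hsz⟩ := hMOD2 M S P φ 2 k t g δ B (1 / 4 - η) w c a x hS (by norm_num) hδ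
    (by push_cast; exact hδ2) (by linarith) hg hXt (Eventually.of_forall hwS)
    (fun i => Eventually.of_forall (haS i)) hcs
    (fun i => Eventually.of_forall fun j => by
      rw [hP, hP]
      push_cast
      exact haB i j)
    (Eventually.of_forall fun j => by
      rw [hP, map_sub, map_intCast]
      exact hap j) (Eventually.of_forall halt)
  set A : ℕ → M := fun j => ∑ i, (c i j : M) * a i j with hA
  obtain ⟨hsl2, hmu2⟩ := hscale X 2 (by norm_num) hXX (Eventually.of_forall fun j => by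
    have := hX2 j
    rw [← this]
    exact (Real.rpow_natCast (X j) 2).ge)
  have hMUw' : MU P φ X w := hmu2 w hMUw
  have hSpA' : SpM P φ X A := by
    obtain ⟨t', c', u', h1, h2, h3⟩ := hSpA
    exact ⟨t', c', u', fun i => hsl2 _ (h1 i), fun i => hmu2 _ (h2 i), h3⟩
  -- the square root
  have hρ : 0 < δ / 2 := by linarith
  have hlarge : ∀ᶠ j in (φ : Filter ℕ), t * (2 : ℝ) ^ (δ / 2) ≤ X j ^ (δ / 2) :=
    (tendsto_rpow_atTop hρ).comp hXX |>.eventually_ge_atTop _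
  have hAw : ∀ᶠ j in (φ : Filter ℕ),
      P.nv none (A j) ≤ P.nv none (w j) ^ 2 * X j ^ (-(δ / 2)) := by
    filter_upwards [hsz, hlarge] with j h1 h2
    obtain ⟨h3, h4, h5⟩ := h1
    have hw0 : 0 < P.nv none (w j) := by
      rcases (P.nn none (w j)).eq_or_lt with h | h
      · exfalso
        have h6 := hx1 j
        rw [← h] at h3
        norm_num at h3
        have h7 : |(x j : ℝ)| = 0 := by rw [h3]; simp
        linarith
      · exact h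
    have hle : X j / (2 : ℝ) ^ (1 / 2 : ℝ) ≤ P.nv none (w j) := by
      have h22 : (0 : ℝ) < (2 : ℝ) ^ (1 / 2 : ℝ) := by positivity
      rw [div_le_iff₀ h22]
      refine le_of_sq_le_sq ?_ (by positivity)
      rw [hX2, mul_pow, ← Real.rpow_natCast ((2 : ℝ) ^ (1 / 2 : ℝ)) 2,
        ← Real.rpow_mul (by norm_num)]
      norm_num
      linarith
    have hp : (2 : ℝ) - δ = 2 + (-δ) := by ring
    have h6 : P.nv none (w j) ^ (((2 : ℕ) : ℝ) - δ) =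
        P.nv none (w j) ^ 2 * P.nv none (w j) ^ (-δ) := by
      push_cast
      rw [hp, Real.rpow_add hw0]
      congr 1
      exact_mod_cast Real.rpow_natCast (P.nv none (w j)) 2
    have h7 : P.nv none (w j) ^ (-δ) ≤ (X j / (2 : ℝ) ^ (1 / 2 : ℝ)) ^ (-δ) :=
      Real.rpow_le_rpow_of_nonpos (by have := hX0 j; positivity) hle (by linarith)
    have h8 : (X j / (2 : ℝ) ^ (1 / 2 : ℝ)) ^ (-δ) = (2 : ℝ) ^ (δ / 2) * X j ^ (-δ) := by
      rw [Real.div_rpow (hX0 j).le (by positivity), ← Real.rpow_mul (by norm_num), div_eq_mul_inv,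
        ← Real.rpow_neg (by norm_num), mul_comm]
      congr 2
      ring
    have h9 : X j ^ (-δ) = X j ^ (-(δ / 2)) * X j ^ (-(δ / 2)) := by
      rw [← Real.rpow_add (hX0 j)]
      congr 1
      ring
    have h10 : X j ^ (δ / 2) * X j ^ (-(δ / 2)) = 1 := by
      rw [← Real.rpow_add (hX0 j)]
      simp
    have hn : 0 < X j ^ (-(δ / 2)) := Real.rpow_pos_of_pos (hX0 j) _
    calc P.nv none (A j) ≤ t * P.nv none (w j) ^ (((2 : ℕ) : ℝ) - δ) := h5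
      _ = P.nv none (w j) ^ 2 * (t * P.nv none (w j) ^ (-δ)) := by rw [h6]; ring
      _ ≤ P.nv none (w j) ^ 2 * (t * ((2 : ℝ) ^ (δ / 2) * X j ^ (-δ))) := by
          rw [← h8]
          exact mul_le_mul_of_nonneg_left (mul_le_mul_of_nonneg_left h7 (by positivity))
            (by positivity)
      _ = P.nv none (w j) ^ 2 * ((t * (2 : ℝ) ^ (δ / 2) * X j ^ (-(δ / 2))) *
            X j ^ (-(δ / 2))) := by rw [h9]; ring
      _ ≤ P.nv none (w j) ^ 2 * (1 * X j ^ (-(δ / 2))) := by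
          refine mul_le_mul_of_nonneg_left (mul_le_mul_of_nonneg_right ?_ hn.le) (by positivity)
          rw [← h10]
          exact mul_le_mul_of_nonneg_right h2 hn.le
      _ = _ := by rw [one_mul]
  obtain ⟨R, R', hR, hR', hRR⟩ := hROOT M S P φ X 2 w A (δ / 2) 4 hS hXX (by norm_num) hρ hMUw'
    hSpA' hAw
  -- sizes
  set μ : ℝ := min η (1 / 4) with hμ
  have hμ0 : 0 < μ := lt_min hη (by norm_num)
  have hμ1 : μ ≤ η := min_le_left _ _
  have hμ2 : μ ≤ 1 / 4 := min_le_right _ _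
  set β : ℝ := 1 / 2 - μ with hβ
  have hsmall : ∀ᶠ j in (φ : Filter ℕ), (2 : ℝ) ≤ X j ^ μ :=
    (tendsto_rpow_atTop hμ0).comp hXX |>.eventually_ge_atTop _
  have hXl : ∀ᶠ j in (φ : Filter ℕ), (64 : ℝ) ≤ X j := hXX.eventually_ge_atTop _
  have hb : ∀ᶠ j in (φ : Filter ℕ), P.nv none ((x j : M) - R j ^ 2) ≤ X j ^ β := by
    filter_upwards [hRR, hsmall, hXl] with j h1 h2 h3
    obtain ⟨h4, -, -⟩ := h1
    have hX1 : (1 : ℝ) ≤ X j := by linarith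
    have h5 := hap j
    rw [hXp] at h5
    rw [hP] at h4 ⊢
    have h6 : ψ ((x j : M) - R j ^ 2) = ((x j : ℂ) - ψ (w j ^ 2 + A j)) -
        ψ (R j ^ 2 - (w j ^ 2 + A j)) := by
      rw [map_sub, map_sub, map_intCast]
      ring
    rw [h6]
    refine (norm_sub_le _ _).trans ?_
    have h7 : X j ^ (2 * (1 / 4 - η)) ≤ X j ^ (β - μ) :=
      Real.rpow_le_rpow_of_exponent_le hX1 (by rw [hβ]; linarith)
    have h8 : X j ^ (-4 : ℝ) ≤ X j ^ (β - μ) :=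
      Real.rpow_le_rpow_of_exponent_le hX1 (by rw [hβ]; linarith)
    have h9 : X j ^ β = X j ^ μ * X j ^ (β - μ) := by
      rw [← Real.rpow_add (hX0 j)]
      congr 1
      ring
    have h10 : 2 * X j ^ (β - μ) ≤ X j ^ μ * X j ^ (β - μ) :=
      mul_le_mul_of_nonneg_right h2 (Real.rpow_nonneg (hX0 j).le _)
    rw [h9]
    have h11 := h5.trans h7
    have h12 := h4.trans h8
    linarith
  -- the sign
  have hor : ∀ᶠ j in (φ : Filter ℕ),
      P.nv none ((y j : M) - R j ^ 3) ≤ X j ^ (3 - 1 / 2 : ℝ) ∨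
        P.nv none ((y j : M) - (-R j) ^ 3) ≤ X j ^ (3 - 1 / 2 : ℝ) := by
    filter_upwards [hb, hXl] with j h1 h2
    rw [hP] at h1
    rw [hP, hP]
    have h3 : ψ ((y j : M) - R j ^ 3) = (y j : ℂ) - ψ (R j) ^ 3 := by
      rw [map_sub, map_pow, map_intCast]
    have h4 : ψ ((y j : M) - (-R j) ^ 3) = (y j : ℂ) + ψ (R j) ^ 3 := by
      rw [map_sub, map_pow, map_neg, map_intCast]
      ring
    have h5 : ψ ((x j : M) - R j ^ 2) = (x j : ℂ) - ψ (R j) ^ 2 := by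
      rw [map_sub, map_pow, map_intCast]
    rw [h3, h4]
    rw [h5] at h1
    have h6 : (3 - 1 / 2 : ℝ) = 5 / 2 := by norm_num
    rw [h6]
    refine pick h2 (by rw [hβ]; linarith) ?_ ?_ h1
    · rw [hX2]
      exact Complex.norm_intCast _
    · have h7 := hdj j
      rw [hXp] at h7
      have h8 : ((y j : ℂ) ^ 2 - (x j : ℂ) ^ 3) = ((y j ^ 2 - x j ^ 3 : ℤ) : ℂ) := by push_cast; rfl
      rw [h8, Complex.norm_intCast]
      refine h7.trans ?_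
      calc X j ^ (2 * (1 / (2 + ε))) ≤ X j ^ (1 : ℝ) := by
            refine Real.rpow_le_rpow_of_exponent_le (by linarith) ?_
            rw [mul_one_div, div_le_one (by linarith)]
            linarith
        _ = X j := Real.rpow_one _
  obtain ⟨_, _, _, _, _, hslSp, _, hSpop, _, _, _, hSpcongr, _⟩ := hSPW M S P φ X hS hXX
  obtain ⟨hconst, _⟩ := hSLW M S P φ X hS hXX
  have hneg : ∀ z : ℕ → M, SpM P φ X z → SpM P φ X (fun j => -z j) := by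
    intro z hz
    have h1 := (hSpop (fun _ => (-1 : M)) z (hslSp _ (hconst (-1 : M))) hz).2
    exact (hSpcongr _ _ (Eventually.of_forall fun j => by ring)).1 h1
  have hβ0 : 0 ≤ β := by rw [hβ]; linarith
  have hβ1 : β < 1 / 2 := by rw [hβ]; linarith
  rcases Ultrafilter.eventually_or.1 hor with h1 | h1
  · refine hBRG M S P φ x y X R R' β ε (1 / 2) hS hε hβ0 hβ1 (by norm_num) hXX
      (Eventually.of_forall hX2) hR hR' ?_
    filter_upwards [h1, hb, hRR] with j h2 h3 h4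
    exact ⟨hne3 j, hdj j, h3, h4.2.1, h2⟩
  · refine hBRG M S P φ x y X (fun j => -R j) (fun j => -R' j) β ε (1 / 2) hS hε hβ0 hβ1
      (by norm_num) hXX (Eventually.of_forall hX2) (hneg R hR) (hneg R' hR') ?_
    filter_upwards [h1, hb, hRR] with j h2 h3 h4
    refine ⟨hne3 j, hdj j, ?_, ?_, h2⟩
    · rw [neg_sq]
      exact h3
    · rw [neg_mul_neg]
      exact h4.2.1

end Pool.Agent.Helper47.JN
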