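import Pool.Agent.Helper71.JN.SheetA
import Pool.Agent.Helper47.JN.RK
import Pool.Agent.Helper53.SUBW.Rep

/-!
Project JN, row RDX: elements of `D.R` as sequences.
-/

set_option autoImplicit false

namespace Pool.Agent.Helper47.JN

open Filter Finset Pool.Agent.Helper70.SUB Pool.Agent.Helper77.SUBK Pool.Agent.Helper70.SUBL
  Pool.Agent.Helper70.SUBW Pool.Agent.Helper71.JN Pool.Agent.Helper53.SUBW

section

variable {M : Type} [Field M] [NumberField M] {S : Finset ℕ} {P : PF S M} {φ : Ultrafilter ℕ}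
  {X : ℕ → ℝ} {r : ℕ}

theorem coe_mon (w : Fin r → ℕ → M) (W : Fin r → Om P φ X)
    (hw : ∀ k, ((W k : Om P φ X) : UP M φ) = gm φ (w k)) (m : Fin r → ℤ) :
    ((Pool.Agent.Helper71.JN.mon W m : Om P φ X) : UP M φ) = gm φ (fun j => monM (fun k => w k j) m) := by
  rw [gm_monM]
  unfold Pool.Agent.Helper71.JN.mon monM
  have h1 : (((∏ k, W k ^ m k : Om P φ X)) : UP M φ) = ∏ k, ((W k : Om P φ X) : UP M φ) ^ m k := by
    have h2 := map_prod (Om P φ X).subtype (fun k => W k ^ m k) Finset.univ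
    simpa only [map_zpow₀, Subfield.subtype_apply] using h2
  rw [h1]
  exact Finset.prod_congr rfl fun k _ => by rw [hw]

theorem coe_sum {κ : Type} (s : Finset κ) (f : κ → Om P φ X) :
    (((∑ m ∈ s, f m : Om P φ X)) : UP M φ) = ∑ m ∈ s, ((f m : Om P φ X) : UP M φ) := by
  have h2 := map_sum (Om P φ X).subtype f s
  simpa only [Subfield.subtype_apply] using h2

end

theorem RDX (hOMG : ST_OMG) (hSPW : ST_SPW) : ST_RDX := by
  intro M _ _ _ S P φ X r w D hS hX hw hD
  obtain ⟨-, -, hSl, -, hmem, -, -, -⟩ := hOMG M S P φ X hS hX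
  obtain ⟨-, -, -, -, hMon, hSpS, hSpU, hSpA, -, -, -, hEv, -⟩ := hSPW M S P φ X hS hX
  refine ⟨?_, ?_⟩
  · intro g z hg hz
    obtain ⟨s, c, -, hgs⟩ := R_sum D g hg
    have h1 : ∀ m : Fin r → ℤ, ∃ a : ℕ → M, Slw P φ X a ∧
        gm φ a = ((c m : Om P φ X) : UP M φ) := fun m => (hSl (c m : Om P φ X)).1 (c m).2
    choose a ha ha2 using h1
    have h2 : gm φ z = gm φ (fun j => ∑ m ∈ s, a m j * monM (fun k => w k j) m) := by
      rw [gm_sum φ s fun m j => a m j * monM (fun k => w k j) m, hz, hgs, coe_sum]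
      refine Finset.sum_congr rfl fun m _ => ?_
      change ((c m : Om P φ X) : UP M φ) * ((Pool.Agent.Helper71.JN.mon D.w m : Om P φ X) : UP M φ) =
        gm φ (a m) * gm φ (fun j => monM (fun k => w k j) m)
      rw [ha2, coe_mon w D.w hD.hw m]
    have h3 : ∀ s : Finset (Fin r → ℤ),
        SpM P φ X (fun j => ∑ m ∈ s, a m j * monM (fun k => w k j) m) := by
      classical
      intro s
      induction s using Finset.induction_on with
      | empty =>
        simp only [Finset.sum_empty]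
        refine hSpS _ ?_
        have := (hSl 0).1 (Sl P φ X).zero_mem
        obtain ⟨z0, hz0, hz1⟩ := this
        have h4 : gm φ z0 = gm φ fun _ => (0 : M) := hz1
        rw [gm_iff] at h4
        intro ε hε
        filter_upwards [hz0 ε hε, h4] with j h5 h6
        rw [h6] at h5
        exact h5
      | insert b s hb ih =>
        simp only [Finset.sum_insert hb]
        exact (hSpA _ _ (hSpA _ _ (hSpS _ (ha b)) (hSpU _ (hMon r w b hw))).2 ih).1
    exact (hEv _ _ (((gm_iff φ).1 h2).mono fun j hj => hj.symm)).1 (h3 s)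
  · intro t c u z hc hu hz
    choose s m hs hsm using hu
    have h1 : ∀ i, gm φ (c i) ∈ Om P φ X := fun i => hmem _ (hc i)
    have h2 : ∀ i, gm φ (s i) ∈ Om P φ X := fun i => hmem _ (hs i)
    have h3 : ∀ i, (⟨gm φ (c i), h1 i⟩ : Om P φ X) ∈ Sl P φ X := fun i =>
      (hSl _).2 ⟨c i, hc i, rfl⟩
    have h4 : ∀ i, (⟨gm φ (s i), h2 i⟩ : Om P φ X) ∈ Sl P φ X := fun i =>
      (hSl _).2 ⟨s i, hs i, rfl⟩
    refine ⟨∑ i, algebraMap (Sl P φ X) (Om P φ X)
      ((⟨⟨gm φ (c i), h1 i⟩, h3 i⟩ : Sl P φ X) * ⟨⟨gm φ (s i), h2 i⟩, h4 i⟩) *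
      Pool.Agent.Helper71.JN.mon D.w (m i), ?_, ?_⟩
    · exact Subalgebra.sum_mem _ fun i _ =>
        Subalgebra.mul_mem _ (Subalgebra.algebraMap_mem _ _) (mon_mem D _)
    · have h5 : gm φ z = gm φ (fun j => ∑ i, c i j * u i j) :=
        (gm_iff φ).2 (hz.mono fun j hj => hj.symm)
      rw [h5, gm_sum φ Finset.univ fun i j => c i j * u i j, coe_sum]
      refine Finset.sum_congr rfl fun i _ => ?_
      have h6 : gm φ (u i) = gm φ (s i) * gm φ (fun j => monM (fun k => w k j) (m i)) :=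
        (gm_iff φ).2 (hsm i)
      change gm φ (c i) * gm φ (u i) =
        (gm φ (c i) * gm φ (s i)) * 
          ((Pool.Agent.Helper71.JN.mon D.w (m i) : Om P φ X) : UP M φ)
      rw [coe_mon w D.w hD.hw, h6, mul_assoc]

end Pool.Agent.Helper47.JN
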