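import Mathlib

/-!
Project JN, sheet E, row GSUM: the sum of `n` points of `Y ^ 2 = X ^ 3 + D` close to `(R ^ 2, R ^ 3)`
is close to `((R / n) ^ 2, (R / n) ^ 3)`, for a submultiplicative non-archimedean norm.
-/

set_option autoImplicit false

namespace Pool.Agent.Helper47.JN

open WeierstrassCurve WeierstrassCurve.Affine

variable {L : Type} [Field L]

/-- a submultiplicative non-archimedean norm which is trivial on the rational numbers -/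
structure NN [CharZero L] (N : L → ℝ) : Prop where
  nn : ∀ a, 0 ≤ N a
  add : ∀ a b, N (a + b) ≤ max (N a) (N b)
  mul : ∀ a b, N (a * b) ≤ N a * N b
  neg : ∀ a, N (-a) = N a
  zero : N 0 = 0
  rat : ∀ q : ℚ, q ≠ 0 → N (q : L) = 1

/-- `a` has the residue `q` -/
def Cg [CharZero L] (N : L → ℝ) (a : L) (q : ℚ) : Prop := N (a - (q : L)) < 1

section

variable [CharZero L] {N : L → ℝ}

theorem NN.rat' (h : NN N) (q : ℚ) : N (q : L) ≤ 1 := by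
  by_cases hq : q = 0
  · rw [hq, Rat.cast_zero, h.zero]; exact zero_le_one
  · exact (h.rat q hq).le

theorem Cg.rat (h : NN N) (q : ℚ) : Cg N (q : L) q := by
  unfold Cg
  rw [sub_self, h.zero]; exact one_pos

theorem Cg.le (h : NN N) {a : L} {q : ℚ} (ha : Cg N a q) : N a ≤ 1 := by
  have e : a = (a - (q : L)) + (q : L) := by ring
  rw [e]
  exact (h.add _ _).trans (max_le (le_of_lt ha) (h.rat' q))

theorem Cg.add (h : NN N) {a b : L} {p q : ℚ} (ha : Cg N a p) (hb : Cg N b q) :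
    Cg N (a + b) (p + q) := by
  unfold Cg at *
  have e : a + b - ((p + q : ℚ) : L) = (a - p) + (b - q) := by push_cast; ring
  rw [e]
  exact (h.add _ _).trans_lt (max_lt ha hb)

theorem Cg.neg (h : NN N) {a : L} {p : ℚ} (ha : Cg N a p) : Cg N (-a) (-p) := by
  unfold Cg at *
  have e : -a - ((-p : ℚ) : L) = -(a - p) := by push_cast; ring
  rw [e, h.neg]
  exact ha

theorem Cg.sub (h : NN N) {a b : L} {p q : ℚ} (ha : Cg N a p) (hb : Cg N b q) :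
    Cg N (a - b) (p - q) := by
  rw [sub_eq_add_neg, sub_eq_add_neg]
  exact ha.add h (hb.neg h)

theorem lt_one_mul (h : NN N) {a b : L} (ha : N a < 1) (hb : N b ≤ 1) : N (a * b) < 1 := by
  refine (h.mul a b).trans_lt ?_
  calc N a * N b ≤ N a * 1 := mul_le_mul_of_nonneg_left hb (h.nn a)
    _ < 1 := by rw [mul_one]; exact ha

theorem Cg.mul (h : NN N) {a b : L} {p q : ℚ} (ha : Cg N a p) (hb : Cg N b q) :
    Cg N (a * b) (p * q) := by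
  have hb' := hb.le h
  unfold Cg at *
  have e : a * b - ((p * q : ℚ) : L) = (a - p) * b + (b - q) * (p : L) := by push_cast; ring
  rw [e]
  exact (h.add _ _).trans_lt (max_lt (lt_one_mul h ha hb') (lt_one_mul h hb (h.rat' p)))

theorem Cg.pow (h : NN N) {a : L} {p : ℚ} (ha : Cg N a p) (n : ℕ) : Cg N (a ^ n) (p ^ n) := by
  induction n with
  | zero =>
    have := Cg.rat h (1 : ℚ)
    rw [Rat.cast_one] at this
    simpa using this
  | succ n ih => rw [pow_succ, pow_succ]; exact ih.mul h ha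

theorem Cg.ne (h : NN N) {a : L} {p : ℚ} (ha : Cg N a p) (hp : p ≠ 0) : a ≠ 0 := by
  rintro rfl
  unfold Cg at ha
  rw [zero_sub, h.neg, h.rat p hp] at ha
  exact lt_irrefl _ ha

theorem Cg.inv (h : NN N) {a : L} {p : ℚ} (ha : Cg N a p) (hp : p ≠ 0) : Cg N a⁻¹ p⁻¹ := by
  have ha0 := ha.ne h hp
  have hpL : (p : L) ≠ 0 := by exact_mod_cast hp
  have h1 : Cg N (a * ((p⁻¹ : ℚ) : L)) (p * p⁻¹) := ha.mul h (Cg.rat h _)
  rw [mul_inv_cancel₀ hp] at h1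
  unfold Cg at h1
  rw [Rat.cast_one] at h1
  have h2 : N (a⁻¹ * (p : L)) ≤ 1 := by
    by_contra hc
    push Not at hc
    have e : a⁻¹ * (p : L) = ((1 : ℚ) : L) + -((a * ((p⁻¹ : ℚ) : L) - 1) * (a⁻¹ * (p : L))) := by
      push_cast
      field_simp
      ring
    have h3 : N (a⁻¹ * (p : L)) ≤
        max 1 (N (a * ((p⁻¹ : ℚ) : L) - 1) * N (a⁻¹ * (p : L))) := by
      conv_lhs => rw [e]
      refine (h.add _ _).trans (max_le_max (h.rat' 1) ?_)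
      rw [h.neg]
      exact h.mul _ _
    rcases le_max_iff.1 h3 with h4 | h4
    · exact absurd h4 (not_le.2 hc)
    · have : N (a * ((p⁻¹ : ℚ) : L) - 1) * N (a⁻¹ * (p : L)) < 1 * N (a⁻¹ * (p : L)) :=
        mul_lt_mul_of_pos_right h1 (zero_lt_one.trans hc)
      rw [one_mul] at this
      exact absurd h4 (not_le.2 this)
  unfold Cg
  have e2 : a⁻¹ - ((p⁻¹ : ℚ) : L) =
      -((a * ((p⁻¹ : ℚ) : L) - 1) * ((a⁻¹ * (p : L)) * ((p⁻¹ : ℚ) : L))) := by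
    push_cast
    field_simp
    ring
  rw [e2, h.neg]
  refine lt_one_mul h h1 ?_
  exact (h.mul _ _).trans (mul_le_one₀ h2 (h.nn _) (h.rat' _))

theorem Cg.div (h : NN N) {a b : L} {p q : ℚ} (ha : Cg N a p) (hb : Cg N b q) (hq : q ≠ 0) :
    Cg N (a / b) (p / q) := by
  rw [div_eq_mul_inv, div_eq_mul_inv]
  exact ha.mul h (hb.inv h hq)

variable {W : WeierstrassCurve.Affine L}

/-- the slope without division by `x₁ - x₂` -/
theorem slope_sym [DecidableEq L] (h1 : W.a₁ = 0) (h2 : W.a₂ = 0) (h3 : W.a₃ = 0) (h4 : W.a₄ = 0)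
    {x₁ y₁ x₂ y₂ : L} (e₁ : W.Equation x₁ y₁) (e₂ : W.Equation x₂ y₂) (hy : y₁ + y₂ ≠ 0) :
    W.slope x₁ x₂ y₁ y₂ = (x₁ ^ 2 + x₁ * x₂ + x₂ ^ 2) / (y₁ + y₂) := by
  rw [equation_iff, h1, h2, h3, h4] at e₁ e₂
  by_cases hx : x₁ = x₂
  · subst hx
    have hne : y₁ ≠ W.negY x₁ y₂ := by
      unfold negY
      rw [h1, h3]
      intro h
      apply hy
      rw [h]; ring
    have hyy : y₁ = y₂ := by
      have : (y₁ - y₂) * (y₁ + y₂) = 0 := by linear_combination e₁ - e₂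
      rcases mul_eq_zero.1 this with h | h
      · exact sub_eq_zero.1 h
      · exact absurd h hy
    subst hyy
    rw [slope_of_Y_ne rfl hne]
    unfold negY
    rw [h1, h2, h3, h4]
    have : y₁ - (-y₁ - 0 * x₁ - 0) = y₁ + y₁ := by ring
    rw [this]
    congr 1
    ring
  · rw [slope_of_X_ne hx, div_eq_div_iff (sub_ne_zero.2 hx) hy]
    linear_combination e₁ - e₂

/-- one step -/
theorem add_step [DecidableEq L] (h : NN N) (h1 : W.a₁ = 0) (h2 : W.a₂ = 0) (h3 : W.a₃ = 0)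
    (h4 : W.a₄ = 0) {R : L} (hR : R ≠ 0) {x₁ y₁ x₂ y₂ : L} (n₁ : W.Nonsingular x₁ y₁)
    (n₂ : W.Nonsingular x₂ y₂) {k : ℕ} (hk : 0 < k) (hx₁ : Cg N (x₁ / R ^ 2) 1)
    (hy₁ : Cg N (y₁ / R ^ 3) 1) (hx₂ : Cg N (x₂ / R ^ 2) (1 / (k : ℚ) ^ 2))
    (hy₂ : Cg N (y₂ / R ^ 3) (1 / (k : ℚ) ^ 3)) :
    ∃ (X Y : L) (hn : W.Nonsingular X Y), Point.some x₁ y₁ n₁ + Point.some x₂ y₂ n₂ =
      Point.some X Y hn ∧ Cg N (X / R ^ 2) (1 / ((k + 1 : ℕ) : ℚ) ^ 2) ∧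
        Cg N (Y / R ^ 3) (1 / ((k + 1 : ℕ) : ℚ) ^ 3) := by
  have hkq : (0 : ℚ) < (k : ℚ) := by exact_mod_cast hk
  have hs : Cg N (y₁ / R ^ 3 + y₂ / R ^ 3) (1 + 1 / (k : ℚ) ^ 3) := hy₁.add h hy₂
  have hs0 : (1 + 1 / (k : ℚ) ^ 3) ≠ 0 := by positivity
  have hy : y₁ + y₂ ≠ 0 := by
    intro e
    apply hs.ne h hs0
    rw [← add_div, e, zero_div]
  have hne : y₁ ≠ W.negY x₂ y₂ := by
    unfold negY
    rw [h1, h3]
    intro h
    apply hy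
    rw [h]; ring
  refine ⟨_, _, nonsingular_add n₁ n₂ (fun hxy => hne hxy.right), Point.add_of_Y_ne hne, ?_⟩
  have hsl : Cg N (W.slope x₁ x₂ y₁ y₂ / R)
      (((k : ℚ) ^ 2 + k + 1) / (k * (k + 1))) := by
    rw [slope_sym h1 h2 h3 h4 n₁.1 n₂.1 hy]
    have e : (x₁ ^ 2 + x₁ * x₂ + x₂ ^ 2) / (y₁ + y₂) / R =
        ((x₁ / R ^ 2) ^ 2 + (x₁ / R ^ 2) * (x₂ / R ^ 2) + (x₂ / R ^ 2) ^ 2) /
          (y₁ / R ^ 3 + y₂ / R ^ 3) := by
      rw [← add_div]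
      field_simp
    rw [e]
    have e2 : ((k : ℚ) ^ 2 + k + 1) / (k * (k + 1)) =
        (1 ^ 2 + 1 * (1 / (k : ℚ) ^ 2) + (1 / (k : ℚ) ^ 2) ^ 2) / (1 + 1 / (k : ℚ) ^ 3) := by
      rw [div_eq_div_iff (by positivity) hs0]
      field_simp
      ring
    rw [e2]
    exact (((hx₁.pow h 2).add h (hx₁.mul h hx₂)).add h (hx₂.pow h 2)).div h hs hs0
  have hX : Cg N (W.addX x₁ x₂ (W.slope x₁ x₂ y₁ y₂) / R ^ 2) (1 / ((k + 1 : ℕ) : ℚ) ^ 2) := by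
    unfold addX
    rw [h1, h2]
    have e : ((W.slope x₁ x₂ y₁ y₂) ^ 2 + 0 * W.slope x₁ x₂ y₁ y₂ - 0 - x₁ - x₂) / R ^ 2 =
        (W.slope x₁ x₂ y₁ y₂ / R) ^ 2 - x₁ / R ^ 2 - x₂ / R ^ 2 := by
      field_simp
      ring
    rw [e]
    have e2 : 1 / ((k + 1 : ℕ) : ℚ) ^ 2 =
        (((k : ℚ) ^ 2 + k + 1) / (k * (k + 1))) ^ 2 - 1 - 1 / (k : ℚ) ^ 2 := by
      push_cast
      field_simp
      ring
    rw [e2]
    exact ((hsl.pow h 2).sub h hx₁).sub h hx₂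
  refine ⟨hX, ?_⟩
  unfold addY negAddY negY
  rw [h1, h3]
  have e : (-(W.slope x₁ x₂ y₁ y₂ * (W.addX x₁ x₂ (W.slope x₁ x₂ y₁ y₂) - x₁) + y₁) -
      0 * W.addX x₁ x₂ (W.slope x₁ x₂ y₁ y₂) - 0) / R ^ 3 =
      -((W.slope x₁ x₂ y₁ y₂ / R) * (W.addX x₁ x₂ (W.slope x₁ x₂ y₁ y₂) / R ^ 2 - x₁ / R ^ 2) +
        y₁ / R ^ 3) := by
    field_simp
    ring
  rw [e]
  have e2 : 1 / ((k + 1 : ℕ) : ℚ) ^ 3 =
      -((((k : ℚ) ^ 2 + k + 1) / (k * (k + 1))) * (1 / ((k + 1 : ℕ) : ℚ) ^ 2 - 1) + 1) := by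
    push_cast
    field_simp
    ring
  rw [e2]
  exact ((hsl.mul h (hX.sub h hx₁)).add h hy₁).neg h

/-- **GSUM** -/
theorem gsum [DecidableEq L] (h : NN N) (h1 : W.a₁ = 0) (h2 : W.a₂ = 0) (h3 : W.a₃ = 0)
    (h4 : W.a₄ = 0) {R : L} (hR : R ≠ 0) {ι : Type} (s : Finset ι) (hs : s.Nonempty)
    (P : ι → W.Point)
    (hP : ∀ j ∈ s, ∃ (x y : L) (hn : W.Nonsingular x y), P j = Point.some x y hn ∧
      Cg N (x / R ^ 2) 1 ∧ Cg N (y / R ^ 3) 1) :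
    ∃ (X Y : L) (hn : W.Nonsingular X Y), ∑ j ∈ s, P j = Point.some X Y hn ∧
      Cg N (X / R ^ 2) (1 / (s.card : ℚ) ^ 2) ∧ Cg N (Y / R ^ 3) (1 / (s.card : ℚ) ^ 3) := by
  induction hs using Finset.Nonempty.cons_induction with
  | singleton a =>
    obtain ⟨x, y, hn, e, hx, hy⟩ := hP a (Finset.mem_singleton_self a)
    refine ⟨x, y, hn, ?_, ?_, ?_⟩
    · rw [Finset.sum_singleton, e]
    · simpa using hx
    · simpa using hy
  | cons a s ha hs ih =>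
    obtain ⟨x₂, y₂, hn₂, e₂, hx₂, hy₂⟩ := ih (fun j hj => hP j (Finset.mem_cons_of_mem hj))
    obtain ⟨x₁, y₁, hn₁, e₁, hx₁, hy₁⟩ := hP a (Finset.mem_cons_self a s)
    obtain ⟨X, Y, hn, e, hX, hY⟩ := add_step h h1 h2 h3 h4 hR hn₁ hn₂ (Finset.card_pos.2 hs)
      hx₁ hy₁ hx₂ hy₂
    refine ⟨X, Y, hn, ?_, ?_, ?_⟩
    · rw [Finset.sum_cons, e₁, e₂, e]
    · rw [Finset.card_cons]; exact hX
    · rw [Finset.card_cons]; exact hY

end

end Pool.Agent.Helper47.JN
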