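import Pool.Agent.Helper71.JN.SheetD
import Pool.Agent.Helper47.JN.RK
import Pool.Agent.Helper47.JN.GSum

/-!
Project JN, sheet E, row GDES: the sum of the conjugates of a point of `Y ^ 2 = X ^ 3 + d` which is
close to `(R ^ 2, R ^ 3)`.
-/

set_option autoImplicit false

namespace Pool.Agent.Helper47.JN

open WeierstrassCurve WeierstrassCurve.Affine Polynomial Pool.Agent.Helper71.JN

section descent

variable {K : Type} [Field K] [CharZero K]

/-- the curve `Y ^ 2 = X ^ 3 + d` -/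
def Ecv (d : K) : WeierstrassCurve K := ⟨0, 0, 0, 0, d⟩

/-- `N` is a norm for which all the conjugates of `(x, y)` are close to `(R ^ 2, R ^ 3)` -/
def Good {E : Type} [Field E] [Algebra K E] (x y : E) (N : AlgebraicClosure K → ℝ) (R : K) :
    Prop :=
  NN N ∧ R ≠ 0 ∧ ∀ σ : E →ₐ[K] AlgebraicClosure K,
    Cg N (σ x / (algebraMap K (AlgebraicClosure K) R) ^ 2) 1 ∧
    Cg N (σ y / (algebraMap K (AlgebraicClosure K) R) ^ 3) 1

theorem descent {E : Type} [Field E] [Algebra K E] [FiniteDimensional K E] (d : K) (hd : d ≠ 0)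
    (x y : E) (hxy : y ^ 2 = x ^ 3 + algebraMap K E d)
    (hne : ∃ (N : AlgebraicClosure K → ℝ) (R : K), Good x y N R) :
    ∃ n : ℕ, 0 < n ∧ ∃ X Y : K, Y ^ 2 = X ^ 3 + d ∧
      ∀ (N : AlgebraicClosure K → ℝ) (R : K), Good x y N R →
        Cg N (algebraMap K (AlgebraicClosure K) (X / R ^ 2)) (1 / (n : ℚ) ^ 2) ∧
        Cg N (algebraMap K (AlgebraicClosure K) (Y / R ^ 3)) (1 / (n : ℚ) ^ 3) := by
  classical
  have : CharZero E := charZero_of_injective_algebraMap (algebraMap K E).injective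
  have hdE : algebraMap K E d ≠ 0 := (_root_.map_ne_zero _).2 hd
  have hns : ((Ecv d)⁄E).Nonsingular x y := by
    rw [nonsingular_iff, equation_iff]
    have a1 : ((Ecv d)⁄E).a₁ = 0 := by simp [Ecv, WeierstrassCurve.baseChange]
    have a2 : ((Ecv d)⁄E).a₂ = 0 := by simp [Ecv, WeierstrassCurve.baseChange]
    have a3 : ((Ecv d)⁄E).a₃ = 0 := by simp [Ecv, WeierstrassCurve.baseChange]
    have a4 : ((Ecv d)⁄E).a₄ = 0 := by simp [Ecv, WeierstrassCurve.baseChange]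
    have a6 : ((Ecv d)⁄E).a₆ = algebraMap K E d := by simp [Ecv, WeierstrassCurve.baseChange]
    rw [a1, a2, a3, a4, a6]
    refine ⟨by linear_combination hxy, ?_⟩
    by_contra hcon
    push Not at hcon
    obtain ⟨h1, h2⟩ := hcon
    have hx : x = 0 := by
      have : 3 * x ^ 2 = 0 := by linear_combination -h1
      have h3 : x ^ 2 = 0 := by
        rcases mul_eq_zero.1 this with h | h
        · exact absurd h (by norm_num)
        · exact h
      exact pow_eq_zero_iff (two_ne_zero) |>.1 h3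
    have hy : y = 0 := by
      have : 2 * y = 0 := by linear_combination h2
      rcases mul_eq_zero.1 this with h | h
      · exact absurd h (by norm_num)
      · exact h
    apply hdE
    rw [hx, hy] at hxy
    linear_combination -hxy
  set A := AlgebraicClosure K with hA
  let P : ((Ecv d)⁄E).Point := Point.some x y hns
  have : Nonempty (E →ₐ[K] A) := ⟨IsAlgClosed.lift⟩
  let Q : ((Ecv d)⁄A).Point := ∑ σ : E →ₐ[K] A, Point.map σ P
  have a1 : ((Ecv d)⁄A).a₁ = 0 := by simp [Ecv, WeierstrassCurve.baseChange]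
  have a2 : ((Ecv d)⁄A).a₂ = 0 := by simp [Ecv, WeierstrassCurve.baseChange]
  have a3 : ((Ecv d)⁄A).a₃ = 0 := by simp [Ecv, WeierstrassCurve.baseChange]
  have a4 : ((Ecv d)⁄A).a₄ = 0 := by simp [Ecv, WeierstrassCurve.baseChange]
  have a6 : ((Ecv d)⁄A).a₆ = algebraMap K A d := by simp [Ecv, WeierstrassCurve.baseChange]
  have hinv : ∀ τ : A ≃ₐ[K] A, Point.map (τ : A →ₐ[K] A) Q = Q := by
    intro τ
    change Point.map (τ : A →ₐ[K] A) (∑ σ : E →ₐ[K] A, Point.map σ P) =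
      ∑ σ : E →ₐ[K] A, Point.map σ P
    rw [map_sum]
    have h1 : ∀ σ : E →ₐ[K] A, Point.map (τ : A →ₐ[K] A) (Point.map σ P) =
        Point.map ((τ : A →ₐ[K] A).comp σ) P := fun σ => Point.map_map σ (τ : A →ₐ[K] A) P
    simp only [h1]
    exact Fintype.sum_equiv (AlgEquiv.arrowCongr (AlgEquiv.refl : E ≃ₐ[K] E) τ) _ _
      fun σ => by
        congr 1
  have hsum : ∀ (N : A → ℝ) (R : K), Good x y N R →
      ∃ (X Y : A) (hn : ((Ecv d)⁄A).Nonsingular X Y), Q = Point.some X Y hn ∧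
        Cg N (X / (algebraMap K A R) ^ 2)
          (1 / ((Finset.univ : Finset (E →ₐ[K] A)).card : ℚ) ^ 2) ∧
        Cg N (Y / (algebraMap K A R) ^ 3)
          (1 / ((Finset.univ : Finset (E →ₐ[K] A)).card : ℚ) ^ 3) := by
    intro N R ⟨hN, hR, hσ⟩
    exact gsum hN a1 a2 a3 a4 ((_root_.map_ne_zero _).2 hR) Finset.univ Finset.univ_nonempty
      (fun σ : E →ₐ[K] A => Point.map σ P) fun σ _ =>
        ⟨σ x, σ y, _, Point.map_some σ hns, (hσ σ).1, (hσ σ).2⟩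
  obtain ⟨N0, R0, hg0⟩ := hne
  obtain ⟨X, Y, hn, hQ, -, -⟩ := hsum N0 R0 hg0
  have hfix : ∀ τ : A ≃ₐ[K] A, τ X = X ∧ τ Y = Y := by
    intro τ
    have h1 := hinv τ
    rw [hQ, Point.map_some, Point.some.injEq] at h1
    exact h1
  have hXb : X ∈ (⊥ : IntermediateField K A) :=
    (InfiniteGalois.mem_bot_iff_fixed X).2 fun τ => (hfix τ).1
  have hYb : Y ∈ (⊥ : IntermediateField K A) :=
    (InfiniteGalois.mem_bot_iff_fixed Y).2 fun τ => (hfix τ).2
  obtain ⟨X0, hX0⟩ := IntermediateField.mem_bot.1 hXb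
  obtain ⟨Y0, hY0⟩ := IntermediateField.mem_bot.1 hYb
  refine ⟨(Finset.univ : Finset (E →ₐ[K] A)).card, Finset.card_pos.2 Finset.univ_nonempty,
    X0, Y0, ?_, ?_⟩
  · have h1 := hn.1
    rw [equation_iff, a1, a2, a3, a4, a6, ← hX0, ← hY0] at h1
    apply (algebraMap K A).injective
    rw [map_pow, map_add, map_pow]
    linear_combination h1
  · intro N R hg
    obtain ⟨X', Y', hn', hQ', c1, c2⟩ := hsum N R hg
    rw [hQ, Point.some.injEq] at hQ'
    rw [← hQ'.1, ← hX0] at c1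
    rw [← hQ'.2, ← hY0] at c2
    rw [map_div₀, map_div₀, map_pow, map_pow]
    exact ⟨c1, c2⟩

end descent

variable {F Ω : Type} [Field F] [Field Ω] [Algebra F Ω] {I : Type} [Fintype I] {r : ℕ}

/-- a denominator for `a / R ^ k - 1` -/
theorem den_div (D : SSF F Ω I r) {a R : Ω} (ha : a ∈ D.O) (hR : R ∈ D.K) (hR0 : R ≠ 0) (k : ℕ) :
    ∃ q ∈ D.R, q ≠ 0 ∧ q * (a / R ^ k - 1) ∈ D.O := by
  obtain ⟨f, g, hg, rfl⟩ := K_form D R hR
  have hg0 : D.ev g ≠ 0 := ev_ne D g hg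
  have hf0 : D.ev f ≠ 0 := fun h => hR0 (by rw [h, zero_div])
  refine ⟨D.ev f ^ k, Subalgebra.pow_mem _ (ev_mem D f) k, pow_ne_zero _ hf0, ?_⟩
  have e : D.ev f ^ k * (a / (D.ev f / D.ev g) ^ k - 1) = a * D.ev g ^ k - D.ev f ^ k := by
    rw [div_pow]
    field_simp
  rw [e]
  exact D.O.sub_mem (D.O.mul_mem ha (D.O.pow_mem (R_le_O D _ (ev_mem D g)) k))
    (D.O.pow_mem (R_le_O D _ (ev_mem D f)) k)

/-- **GDES** -/
theorem gdes [CharZero Ω] (D : SSF F Ω I r) (hSP : ST_SPNK) {J : Finset I} (hJ : J.Nonempty)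
    {d x y : Ω} {R : I → Ω} (hdK : d ∈ D.K) (hd : d ≠ 0) (hxO : x ∈ D.O) (hyO : y ∈ D.O)
    (hxy : y ^ 2 = x ^ 3 + d) (hxi : IsIntegral D.K x) (hRK : ∀ i ∈ J, R i ∈ D.K)
    (hR0 : ∀ i ∈ J, R i ≠ 0) (hx : ∀ i ∈ J, D.nu i (x / R i ^ 2 - 1) < 1)
    (hy : ∀ i ∈ J, D.nu i (y / R i ^ 3 - 1) < 1) :
    ∃ n : ℕ, 0 < n ∧ ∃ X Y : Ω, X ∈ D.K ∧ Y ∈ D.K ∧ Y ^ 2 = X ^ 3 + d ∧
      ∀ i ∈ J, D.nu i (X / R i ^ 2 - 1 / (n : Ω) ^ 2) < 1 ∧
        D.nu i (Y / R i ^ 3 - 1 / (n : Ω) ^ 3) < 1 := by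
  classical
  have hK0 : CharZero D.K := (algebraMap D.K Ω).charZero
  have hF0 : CharZero F := (algebraMap F Ω).charZero
  have hrat : ∀ (i : I) (q : ℚ), q ≠ 0 → D.nu i (q : Ω) = 1 := by
    intro i q hq
    have h1 := D.F1 i (q : F) (by exact_mod_cast hq)
    rwa [map_ratCast] at h1
  have hyi : IsIntegral D.K y := by
    refine IsIntegral.of_pow (n := 2) (by norm_num) ?_
    rw [hxy]
    refine (hxi.pow 3).add ?_
    exact isIntegral_algebraMap (R := D.K) (A := Ω) (x := ⟨d, hdK⟩)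
  set E : IntermediateField D.K Ω := IntermediateField.adjoin D.K ({x, y} : Set Ω) with hE
  have hfin : FiniteDimensional D.K E := by
    refine IntermediateField.finiteDimensional_adjoin fun z hz => ?_
    rcases hz with rfl | rfl
    · exact hxi
    · exact hyi
  let xE : E := ⟨x, IntermediateField.subset_adjoin _ _ (Or.inl rfl)⟩
  let yE : E := ⟨y, IntermediateField.subset_adjoin _ _ (Or.inr rfl)⟩
  let dK : D.K := ⟨d, hdK⟩
  have hdK0 : dK ≠ 0 := fun h => hd (congrArg Subtype.val h)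
  have hxyE : yE ^ 2 = xE ^ 3 + algebraMap D.K E dK := by
    apply Subtype.ext
    exact hxy
  have key : ∀ (a : E) (i : I) (N : AlgebraicClosure D.K → ℝ),
      (∀ z : Ω, (∃ q ∈ D.R, q ≠ 0 ∧ q * z ∈ D.O) → IsIntegral D.K z →
        ∀ a, aeval a (minpoly D.K z) = 0 → N a ≤ D.nu i z) → (a : Ω) ∈ D.O →
      ∀ (Rk : D.K) (k : ℕ), Rk ≠ 0 → D.nu i ((a : Ω) / (Rk : Ω) ^ k - 1) < 1 →
      ∀ σ : E →ₐ[D.K] AlgebraicClosure D.K,
        Cg N (σ a / (algebraMap D.K (AlgebraicClosure D.K) Rk) ^ k) 1 := by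
    intro a i N hN haO Rk k hRk hlt σ
    unfold Cg
    have e1 : σ a / (algebraMap D.K (AlgebraicClosure D.K) Rk) ^ k - ((1 : ℚ) : AlgebraicClosure D.K)
        = σ (a / (algebraMap D.K E Rk) ^ k - 1) := by
      rw [map_sub, map_div₀, map_pow, AlgHom.commutes, map_one, Rat.cast_one]
    rw [e1]
    refine lt_of_le_of_lt ?_ hlt
    have e2 : ((a / (algebraMap D.K E Rk) ^ k - 1 : E) : Ω) = (a : Ω) / (Rk : Ω) ^ k - 1 := rfl
    have e3 : minpoly D.K ((a : Ω) / (Rk : Ω) ^ k - 1) =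
        minpoly D.K (a / (algebraMap D.K E Rk) ^ k - 1 : E) := by
      rw [← e2]
      exact minpoly.algebraMap_eq (A := D.K) (B := E) (B' := Ω) (algebraMap E Ω).injective
        (a / (algebraMap D.K E Rk) ^ k - 1)
    have hint : IsIntegral D.K (a / (algebraMap D.K E Rk) ^ k - 1 : E) :=
      Algebra.IsIntegral.isIntegral _
    refine hN _ ?_ ?_ _ ?_
    · refine den_div D haO Rk.2 ?_ k
      exact fun h => hRk (Subtype.ext h)
    · rw [← e2]
      exact hint.map (IsScalarTower.toAlgHom D.K E Ω)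
    · rw [e3, aeval_algHom_apply, minpoly.aeval, map_zero]
  have hgood : ∀ i ∈ J, ∃ N : AlgebraicClosure D.K → ℝ,
      (∀ k : D.K, N (algebraMap D.K (AlgebraicClosure D.K) k) = D.nu i (k : Ω)) ∧
      ∀ h : R i ∈ D.K, Good xE yE N (⟨R i, h⟩ : D.K) := by
    intro i hi
    obtain ⟨N, n0, n1, n2, n3, n4, n5, -⟩ := hSP F Ω I r D i
    refine ⟨N, n4, fun h => ⟨⟨n0, n1, n2, n3, ?_, ?_⟩, ?_, ?_⟩⟩
    · have := n4 0
      rw [map_zero] at this
      rw [this]
      exact map_zero _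
    · intro q hq
      have h1 := n4 (q : D.K)
      rw [map_ratCast] at h1
      rw [h1]
      exact hrat i q hq
    · intro h0
      exact hR0 i hi (congrArg Subtype.val h0)
    · intro σ
      have hne : (⟨R i, h⟩ : D.K) ≠ 0 := fun h0 => hR0 i hi (congrArg Subtype.val h0)
      exact ⟨key xE i N n5 hxO ⟨R i, h⟩ 2 hne (hx i hi) σ,
        key yE i N n5 hyO ⟨R i, h⟩ 3 hne (hy i hi) σ⟩
  obtain ⟨i0, hi0⟩ := hJ
  obtain ⟨N0, -, hN0⟩ := hgood i0 hi0
  obtain ⟨n, hn, X, Y, hXY, hall⟩ := descent dK hdK0 xE yE hxyE ⟨N0, _, hN0 (hRK i0 hi0)⟩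
  refine ⟨n, hn, (X : Ω), (Y : Ω), X.2, Y.2, ?_, fun i hi => ?_⟩
  · have := congrArg (Subtype.val) hXY
    exact this
  · obtain ⟨N, hN1, hN2⟩ := hgood i hi
    obtain ⟨c1, c2⟩ := hall N _ (hN2 (hRK i hi))
    have e1 : ∀ (Z : D.K) (q : ℚ), Cg N (algebraMap D.K (AlgebraicClosure D.K) Z) q →
        D.nu i ((Z : Ω) - (q : Ω)) < 1 := by
      intro Z q hZ
      unfold Cg at hZ
      have e2 : algebraMap D.K (AlgebraicClosure D.K) Z - (q : AlgebraicClosure D.K) =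
          algebraMap D.K (AlgebraicClosure D.K) (Z - (q : D.K)) := by
        rw [map_sub, map_ratCast]
      rw [e2, hN1] at hZ
      have e3 : ((Z - (q : D.K) : D.K) : Ω) = (Z : Ω) - (q : Ω) := by
        have := map_ratCast (algebraMap D.K Ω) q
        change (Z : Ω) - algebraMap D.K Ω (q : D.K) = _
        rw [this]
      rwa [e3] at hZ
    have d1 := e1 _ _ c1
    have d2 := e1 _ _ c2
    have e4 : (((1 / (n : ℚ) ^ 2 : ℚ)) : Ω) = 1 / (n : Ω) ^ 2 := by push_cast; rfl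
    have e5 : (((1 / (n : ℚ) ^ 3 : ℚ)) : Ω) = 1 / (n : Ω) ^ 3 := by push_cast; rfl
    rw [e4] at d1
    rw [e5] at d2
    exact ⟨d1, d2⟩

end Pool.Agent.Helper47.JN
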