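import Pool.Agent.Helper47.JN.GDes
import Pool.Agent.Helper27.JN.ZW
import Pool.Agent.Helper66.JN.HEART
import Pool.Agent.Helper99.JN.APX

/-!
Project JN, sheet E, row HEARTW from ALGW, SPNK, PRIM (helper27's proof with `gdes`).
-/

set_option autoImplicit false

namespace Pool.Agent.Helper47.JN

open Pool.Agent.Helper71.JN Polynomial

section

variable {F Ω : Type} [Field F] [Field Ω] [Algebra F Ω] {I : Type} [Fintype I] {r : ℕ}

/-- the size of `z` if `z / a` is close to a number of size one -/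
theorem nu_of_close (D : SSF F Ω I r) (i : I) {z a c : Ω} (ha : a ≠ 0) (hc : D.nu i c = 1)
    (h : D.nu i (z / a - c) < 1) : D.nu i z = D.nu i a := by
  have h1 : D.nu i (z / a) = 1 := by
    refine le_antisymm ?_ ?_
    · have h2 := D.ult i (z / a - c) c
      rw [sub_add_cancel] at h2
      refine h2.trans (max_le h.le hc.le)
    · by_contra hlt
      push Not at hlt
      have h2 := D.ult i (-(z / a - c)) (z / a)
      have h3 : -(z / a - c) + z / a = c := by ring
      rw [h3, hc, (D.nu i).map_neg] at h2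
      exact absurd h2 (not_le.2 (max_lt h hlt))
  have h2 : D.nu i z = D.nu i (z / a) * D.nu i a := by
    rw [← map_mul, div_mul_cancel₀ _ ha]
  rw [h2, h1, one_mul]

end

/-- (HEARTW) -/
theorem HEARTW (hALG : ST_ALGW) (hSPNK : ST_SPNK) (hPRIM : ST_PRIM) : ST_HEARTW := by
  intro F Ω _ _ _ _ I _ r D J α β x y R H
  have hx : IsIntegral D.K x := hALG F Ω I r D J α β x y R H
  have hR0 : ∀ i ∈ J, R i ≠ 0 := by
    intro i hi h0
    have h1 := H.s1 i hi
    rw [h0, map_zero] at h1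
    exact absurd h1.symm (Real.exp_pos 1).ne'
  have hR2 : ∀ i ∈ J, D.nu i (R i ^ 2) = Real.exp 2 := by
    intro i hi
    rw [map_pow, H.s1 i hi, ← Real.exp_nat_mul]
    norm_num
  have hR3 : ∀ i ∈ J, D.nu i (R i ^ 3) = Real.exp 3 := by
    intro i hi
    rw [map_pow, H.s1 i hi, ← Real.exp_nat_mul]
    norm_num
  obtain ⟨n, hn, X, Y, hX, hY, hXY, hs⟩ := gdes D hSPNK H.hJ H.dK H.d0 H.xO H.yO
    (by ring) hx H.RR hR0
    (by
      intro i hi
      have h1 : x / R i ^ 2 - 1 = (x - R i ^ 2) / R i ^ 2 := by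
        rw [sub_div, div_self (pow_ne_zero 2 (hR0 i hi))]
      rw [h1, map_div₀, hR2 i hi, div_lt_one (Real.exp_pos _)]
      refine (H.s2 i hi).trans_lt (Real.exp_lt_exp.2 ?_)
      linarith [H.hβ])
    (by
      intro i hi
      have h1 : y / R i ^ 3 - 1 = (y - R i ^ 3) / R i ^ 3 := by
        rw [sub_div, div_self (pow_ne_zero 3 (hR0 i hi))]
      rw [h1, map_div₀, hR3 i hi, div_lt_one (Real.exp_pos _)]
      exact H.s4 i hi)
  have hn0 : (n : ℚ) ≠ 0 := by
    have : n ≠ 0 := by omega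
    exact_mod_cast this
  have hdO : y ^ 2 - x ^ 3 ∈ D.O := sub_mem (pow_mem H.yO 2) (pow_mem H.xO 3)
  have hdR : y ^ 2 - x ^ 3 ∈ D.R := Helper66.JN.mem_R_of_PRIM hPRIM D _ hdO H.dK
  refine Pool.Agent.Helper27.JN.ZW F Ω I r D J α X Y (y ^ 2 - x ^ 3) H.hJ H.hα hX hY hdR H.d0 hXY ?_ ?_
  · intro i hi
    obtain ⟨h1, h2⟩ := hs i hi
    refine ⟨?_, ?_, H.sd i hi⟩
    · rw [← hR2 i hi]
      refine nu_of_close D i (pow_ne_zero 2 (hR0 i hi)) ?_ h1
      have h3 := Helper99.JN.nu_rat D i (1 / (n : ℚ) ^ 2) (one_div_ne_zero (pow_ne_zero 2 hn0))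
      push_cast at h3
      exact h3
    · rw [← hR3 i hi]
      refine nu_of_close D i (pow_ne_zero 3 (hR0 i hi)) ?_ h2
      have h3 := Helper99.JN.nu_rat D i (1 / (n : ℚ) ^ 3) (one_div_ne_zero (pow_ne_zero 3 hn0))
      push_cast at h3
      exact h3
  · intro i hi
    rw [sub_eq_add_neg]
    refine (D.ult i _ _).trans (max_le ?_ ?_)
    · rw [map_pow]
      exact pow_le_one₀ (apply_nonneg _ _) (H.fy i hi)
    · rw [(D.nu i).map_neg, map_pow]
      exact pow_le_one₀ (apply_nonneg _ _) (H.fx i hi)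

end Pool.Agent.Helper47.JN
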