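import Pool.Agent.Helper71.JN.SheetF
import Pool.Agent.Helper70.JN.Algw
import Pool.Agent.Helper47.JN.HEARTW

/-!
Project JN, sheet F, row HEARTS: as HEARTW.
-/

set_option autoImplicit false

namespace Pool.Agent.Helper47.JN

open Pool.Agent.Helper71.JN Polynomial

/-- (HEARTS) -/
theorem HEARTS (hBIN : ST_BIN) (hSPNK : ST_SPNK) (hPRIM : ST_PRIM) (hZS : ST_ZS) :
    ST_HEARTS := by
  intro F Ω _ _ _ _ I _ r D J β x y R H
  have hx : IsIntegral D.K x := Pool.Agent.Helper70.JN.algw hBIN D J β x y (y ^ 2 - x ^ 3) R H.hβ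
    H.hJ H.xO H.yO H.dK (by ring) H.fx H.fy H.sd H.RR H.s1 H.s2 H.s4
  have hR0 : ∀ i ∈ J, R i ≠ 0 := by
    intro i hi h0
    have h1 := H.s1 i hi
    rw [h0, map_zero] at h1
    exact absurd h1.symm (Real.exp_pos 1).ne'
  have hR2 : ∀ i ∈ J, D.nu i (R i ^ 2) = Real.exp 2 := by
    intro i hi
    rw [map_pow, H.s1 i hi, ← Real.exp_nat_mul]
    norm_num
  have hR3 : ∀ i ∈ J, D.nu i (R i ^ 3) = Real.exp 3 := by
    intro i hi
    rw [map_pow, H.s1 i hi, ← Real.exp_nat_mul]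
    norm_num
  obtain ⟨n, hn, X, Y, hX, hY, hXY, hs⟩ := gdes D hSPNK H.hJ H.dK H.d0 H.xO H.yO
    (by ring) hx H.RR hR0
    (by
      intro i hi
      have h1 : x / R i ^ 2 - 1 = (x - R i ^ 2) / R i ^ 2 := by
        rw [sub_div, div_self (pow_ne_zero 2 (hR0 i hi))]
      rw [h1, map_div₀, hR2 i hi, div_lt_one (Real.exp_pos _)]
      refine (H.s2 i hi).trans_lt (Real.exp_lt_exp.2 ?_)
      linarith [H.hβ])
    (by
      intro i hi
      have h1 : y / R i ^ 3 - 1 = (y - R i ^ 3) / R i ^ 3 := by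
        rw [sub_div, div_self (pow_ne_zero 3 (hR0 i hi))]
      rw [h1, map_div₀, hR3 i hi, div_lt_one (Real.exp_pos _)]
      exact H.s4 i hi)
  have hn0 : (n : ℚ) ≠ 0 := by
    have : n ≠ 0 := by omega
    exact_mod_cast this
  have hdO : y ^ 2 - x ^ 3 ∈ D.O := sub_mem (pow_mem H.yO 2) (pow_mem H.xO 3)
  have hdR : y ^ 2 - x ^ 3 ∈ D.R := Helper66.JN.mem_R_of_PRIM hPRIM D _ hdO H.dK
  refine hZS F Ω I r D J X Y (y ^ 2 - x ^ 3) H.hJ hX hY hdR H.d0 hXY ?_ ?_ H.pd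
  · intro i hi
    obtain ⟨h1, h2⟩ := hs i hi
    refine ⟨?_, ?_, H.sd i hi⟩
    · rw [← hR2 i hi]
      refine nu_of_close D i (pow_ne_zero 2 (hR0 i hi)) ?_ h1
      have h3 := Helper99.JN.nu_rat D i (1 / (n : ℚ) ^ 2) (one_div_ne_zero (pow_ne_zero 2 hn0))
      push_cast at h3
      exact h3
    · rw [← hR3 i hi]
      refine nu_of_close D i (pow_ne_zero 3 (hR0 i hi)) ?_ h2
      have h3 := Helper99.JN.nu_rat D i (1 / (n : ℚ) ^ 3) (one_div_ne_zero (pow_ne_zero 3 hn0))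
      push_cast at h3
      exact h3
  · intro i hi
    rw [sub_eq_add_neg]
    refine (D.ult i _ _).trans (max_le ?_ ?_)
    · rw [map_pow]
      exact pow_le_one₀ (apply_nonneg _ _) (H.fy i hi)
    · rw [(D.nu i).map_neg, map_pow]
      exact pow_le_one₀ (apply_nonneg _ _) (H.fx i hi)

end Pool.Agent.Helper47.JN
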