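import Pool.Agent.Helper47.JN.RK

/-!
Project JN, row RIC: the ring `R` of Laurent polynomials is integrally closed in its field of
fractions `K`.
-/

set_option autoImplicit false

namespace Pool.Agent.Helper47.JN

open Pool.Agent.Helper71.JN Finset

/-- evaluation with values in `R` -/
noncomputable def evR {F Ω : Type} [Field F] [Field Ω] [Algebra F Ω] {I : Type} [Fintype I] {r : ℕ}
    (D : SSF F Ω I r) : MvPolynomial (Fin r) F →ₐ[F] D.R :=
  D.ev.codRestrict D.R (ev_mem D)

theorem RIC : ST_RIC := by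
  intro F Ω _ _ _ I _ r D z hzK hz
  let i1 : Algebra (MvPolynomial (Fin r) F) Ω := D.ev.toRingHom.toAlgebra
  let i2 : Algebra (MvPolynomial (Fin r) F) D.R := (evR D).toRingHom.toAlgebra
  have hal : ∀ p : MvPolynomial (Fin r) F, algebraMap (MvPolynomial (Fin r) F) Ω p = D.ev p :=
    fun _ => rfl
  have hal2 : ∀ p : MvPolynomial (Fin r) F,
      ((algebraMap (MvPolynomial (Fin r) F) D.R p : D.R) : Ω) = D.ev p := fun _ => rfl
  have i3 : IsScalarTower (MvPolynomial (Fin r) F) D.R Ω :=
    IsScalarTower.of_algebraMap_eq fun _ => rfl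
  set N : Submonoid (MvPolynomial (Fin r) F) :=
    (IsUnit.submonoid D.R).comap (algebraMap (MvPolynomial (Fin r) F) D.R) with hN
  have hloc : IsLocalization N D.R := by
    rw [isLocalization_iff]
    refine ⟨fun y => y.2, ?_, ?_⟩
    · intro u
      obtain ⟨m, p, hu⟩ := R_form D u.1 u.2
      obtain ⟨q, hq⟩ := exists_nat D (m ⊔ 0 - m) (sub_nonneg.2 le_sup_left)
      obtain ⟨q', hq'⟩ := exists_nat D (m ⊔ 0) le_sup_right
      have hqN : q ∈ N := by
        rw [hN, Submonoid.mem_comap, IsUnit.mem_submonoid_iff]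
        refine IsUnit.of_mul_eq_one ⟨mon D.w (-(m ⊔ 0 - m)), mon_mem D _⟩ ?_
        refine Subtype.ext ?_
        rw [Subalgebra.coe_mul, hal2, Subalgebra.coe_one, ← hq]
        change mon D.w (m ⊔ 0 - m) * mon D.w (-(m ⊔ 0 - m)) = 1
        rw [mon_neg]
        exact mul_inv_cancel₀ (mon_ne D.w0 _)
      refine ⟨(q' * p, ⟨q, hqN⟩), ?_⟩
      refine Subtype.ext ?_
      rw [Subalgebra.coe_mul, hal2, hal2, map_mul, hu, ← hq, ← hq']
      have : mon D.w (m ⊔ 0) = mon D.w m * mon D.w (m ⊔ 0 - m) := by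
        rw [← mon_add D.w0, add_sub_cancel]
      rw [this]
      ring
    · intro x y hxy
      refine ⟨1, ?_⟩
      have h1 := congrArg (Subtype.val) hxy
      rw [hal2, hal2] at h1
      rw [ev_inj D h1]
  obtain ⟨⟨c, hc⟩, hint⟩ :=
    IsIntegral.exists_multiple_integral_of_isLocalization N (Rₘ := D.R) z hz
  have hsm : ((⟨c, hc⟩ : N) • z) = D.ev c * z := by
    rw [Submonoid.smul_def, Algebra.smul_def, hal]
  rw [hsm] at hint
  obtain ⟨p, q, hq, hpq⟩ := K_form D z hzK
  -- the fraction field of the polynomial ring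
  let φ : FractionRing (MvPolynomial (Fin r) F) →+* Ω :=
    IsFractionRing.lift (A := MvPolynomial (Fin r) F) (g := D.ev.toRingHom) (ev_inj D)
  have hφ : ∀ p : MvPolynomial (Fin r) F,
      φ (algebraMap (MvPolynomial (Fin r) F) (FractionRing (MvPolynomial (Fin r) F)) p) = D.ev p :=
    fun p => IsFractionRing.lift_algebraMap (ev_inj D) p
  let φ' : FractionRing (MvPolynomial (Fin r) F) →ₐ[MvPolynomial (Fin r) F] Ω :=
    { φ with commutes' := fun p => hφ p }
  set x : FractionRing (MvPolynomial (Fin r) F) :=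
    algebraMap (MvPolynomial (Fin r) F) (FractionRing (MvPolynomial (Fin r) F)) (c * p) /
      algebraMap (MvPolynomial (Fin r) F) (FractionRing (MvPolynomial (Fin r) F)) q with hx
  have hφx : φ' x = D.ev c * z := by
    change φ x = _
    rw [hx, map_div₀, hφ, hφ, map_mul, hpq]
    ring
  have hxi : IsIntegral (MvPolynomial (Fin r) F) x := by
    rw [← isIntegral_algHom_iff φ' φ.injective, hφx]
    exact hint
  obtain ⟨y, hy⟩ := IsIntegrallyClosed.algebraMap_eq_of_integral hxi
  have hcz : D.ev c * z = D.ev y := by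
    rw [← hφx, ← hy]
    exact hφ y
  -- `ev c` is a unit of `R`
  have hcu : IsUnit (algebraMap (MvPolynomial (Fin r) F) D.R c) := hc
  obtain ⟨u, hu⟩ := hcu.exists_right_inv
  have hu2 : D.ev c * (u : Ω) = 1 := by
    have := congrArg (Subtype.val) hu
    rwa [Subalgebra.coe_mul, hal2, Subalgebra.coe_one] at this
  have hz2 : z = (u : Ω) * D.ev y := by
    rw [← hcz]
    calc z = (D.ev c * (u : Ω)) * z := by rw [hu2, one_mul]
      _ = _ := by ring
  rw [hz2]
  exact Subalgebra.mul_mem _ u.2 (ev_mem D y)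

end Pool.Agent.Helper47.JN
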